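import Pool.Agent.Helper21.MX.Final

/-!
# Small space: corollaries of the general bound
-/

set_option autoImplicit false

namespace Pool.Agent.Helper21.CR

open Pool.Agent.Helper8.PR Pool.Agent.Helper21.MX

/-- Small space, general parameters. -/
theorem small (d s b : ℕ) (hd : 1 ≤ d)
    (h : ((d : ℝ) + 1) * (5 + (2 * s + b)) + 2 * d * (d + 1) + d * (s * (2 * (101 / 100) ^ 2)) < 300)
    (hs : 1 ≤ s) (ε : ℝ) (hε : 0 < ε) :
    ∃ δ : ℝ, 0 < δ ∧ ∃ n₀ : ℕ, ∀ n : ℕ, n₀ ≤ n → ∀ (C K κ a D r R : ℕ) (A : Mach n D r R),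
      Real.logb 2 C ≤ (n : ℝ) ^ δ → (K : ℝ) ≤ (n : ℝ) ^ δ → (κ : ℝ) ≤ (n : ℝ) ^ δ →
      (a : ℝ) ≤ (n : ℝ) ^ δ → WithinM A 300 C K d s κ (n ^ b) a → A.Decides 300 →
        (n : ℝ) ^ (3 - ε) ≤ D := by
  obtain ⟨e, he0, he1, he2⟩ : ∃ e : ℝ, 0 < e ∧ e ≤ ε / 2 ∧ e ≤ 1 / 100 :=
    ⟨min (ε / 2) (1 / 100), by positivity, min_le_left _ _, min_le_right _ _⟩
  have hs' : (1 : ℝ) ≤ s := by exact_mod_cast hs
  have hd' : (1 : ℝ) ≤ d := by exact_mod_cast hd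
  have hb' : (0 : ℝ) ≤ b := by positivity
  have hm1 : max (e / 100) ((2 : ℝ) * s + b) = 2 * s + b := max_eq_right (by linarith)
  have hm2 : max (e / 100) ((s : ℝ) * (e + e / 100)) = s * (e + e / 100) :=
    max_eq_right (by nlinarith)
  have hc : ((d : ℝ) + 1) * (5 + max (e / 100) (2 * s + b)) + 2 * d * (d + 1) +
      d * max (e / 100) (s * (e + e / 100)) * (2 / e + 2) < (300 : ℕ) := by
    rw [hm1, hm2]
    have h1 : (d : ℝ) * (s * (e + e / 100)) * (2 / e + 2) = d * (s * (2 * (101 / 100) * (1 + e))) := by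
      field_simp
      ring
    rw [h1]
    have h2 : (d : ℝ) * (s * (2 * (101 / 100) * (1 + e))) ≤ d * (s * (2 * (101 / 100) ^ 2)) := by
      apply mul_le_mul_of_nonneg_left _ (by linarith)
      apply mul_le_mul_of_nonneg_left _ (by linarith)
      nlinarith
    push_cast
    linarith
  obtain ⟨δ, hδ, n₀, hn⟩ := asymMach d 300 s b (e / 100) (e / 100) e hd (by positivity)
    (by positivity) he0 hc
  obtain ⟨η, hη0, hη1, hη2, hη3⟩ : ∃ η : ℝ, 0 < η ∧ η ≤ δ ∧ η ≤ e / 100 ∧ η ≤ ε / 4 :=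
    ⟨min δ (min (e / 100) (ε / 4)), by positivity, min_le_left _ _,
      le_trans (min_le_right _ _) (min_le_left _ _), le_trans (min_le_right _ _) (min_le_right _ _)⟩
  obtain ⟨N, hN⟩ := exists_nat_ge ((2 : ℝ) ^ (1 / η))
  refine ⟨η, hη0, max n₀ (max N 1), fun n hn0 C K κ a D r R A hC hK hκ ha hW hdec => ?_⟩
  have hn1 : (1 : ℝ) ≤ n := by
    have : 1 ≤ n := le_trans (le_trans (le_max_right _ _) (le_max_right _ _)) hn0
    exact_mod_cast this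
  have hnpos : (0 : ℝ) < n := by linarith
  have hmono : ∀ x y : ℝ, x ≤ y → (n : ℝ) ^ x ≤ (n : ℝ) ^ y := fun x y hxy =>
    Real.rpow_le_rpow_of_exponent_le hn1 hxy
  have h2 : (2 : ℝ) ≤ (n : ℝ) ^ η := by
    have hNn : (N : ℝ) ≤ n := by
      have : N ≤ n := le_trans (le_trans (le_max_left _ _) (le_max_right _ _)) hn0
      exact_mod_cast this
    have h3 : ((2 : ℝ) ^ (1 / η)) ^ η ≤ (n : ℝ) ^ η :=
      Real.rpow_le_rpow (by positivity) (le_trans hN hNn) hη0.le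
    rwa [← Real.rpow_mul (by norm_num), one_div_mul_cancel hη0.ne', Real.rpow_one] at h3
  have hmin : ((min K (C * D) : ℕ) : ℝ) ≤ (n : ℝ) ^ (e / 100) := by
    have h4 : ((min K (C * D) : ℕ) : ℝ) ≤ K := by exact_mod_cast Nat.min_le_left _ _
    exact le_trans h4 (le_trans hK (hmono _ _ hη2))
  have key := hn n (le_trans (le_max_left _ _) hn0) a κ C K D r R
    (le_trans ha (hmono _ _ hη1)) (le_trans hκ (hmono _ _ hη1)) hmin
    (le_trans hC (hmono _ _ hη2)) A hW hdec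
  have h5 : 1 + Real.logb 2 C ≤ (n : ℝ) ^ (2 * η) := by
    have h6 : (n : ℝ) ^ (2 * η) = (n : ℝ) ^ η * (n : ℝ) ^ η := by
      rw [← Real.rpow_add hnpos]; ring_nf
    rw [h6]
    nlinarith
  have h7 : (n : ℝ) ^ (3 - e) ≤ D * (n : ℝ) ^ (2 * η) :=
    le_trans key (mul_le_mul_of_nonneg_left h5 (by positivity))
  have h8 : (n : ℝ) ^ (3 - e) = (n : ℝ) ^ (3 - e - 2 * η) * (n : ℝ) ^ (2 * η) := by
    rw [← Real.rpow_add hnpos]; ring_nf
  rw [h8] at h7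
  have h9 := le_of_mul_le_mul_right h7 (by positivity)
  exact le_trans (hmono _ _ (by linarith)) h9

/-- Space at most `n ^ (1/2)`. -/
theorem root : ∃ δ : ℝ, 0 < δ ∧ ∃ n₀ : ℕ, ∀ n : ℕ, n₀ ≤ n →
    ∀ (C K κ a D r R : ℕ) (A : Mach n D r R),
      Real.logb 2 C ≤ (n : ℝ) ^ (1 / 2 : ℝ) → K ≤ n ^ 4 → (κ : ℝ) ≤ (n : ℝ) ^ δ →
      (a : ℝ) ≤ (n : ℝ) ^ δ → WithinM A 300 C K 1 6 κ (n ^ 20) a → A.Decides 300 →
        (n : ℝ) ^ (2.96 : ℝ) ≤ D * (1 + Real.logb 2 C) := by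
  have hc : (((1 : ℕ) : ℝ) + 1) * (5 + max (4 : ℝ) (2 * ((6 : ℕ) : ℝ) + ((20 : ℕ) : ℝ))) +
      2 * ((1 : ℕ) : ℝ) * (((1 : ℕ) : ℝ) + 1) +
      ((1 : ℕ) : ℝ) * max (4 : ℝ) (((6 : ℕ) : ℝ) * (1 / 25 + 1 / 2)) * (2 / (1 / 25) + 2) <
        ((300 : ℕ) : ℝ) := by
    have h1 : max (4 : ℝ) (2 * ((6 : ℕ) : ℝ) + ((20 : ℕ) : ℝ)) = 32 := by
      rw [max_eq_right] <;> norm_num
    have h2 : max (4 : ℝ) (((6 : ℕ) : ℝ) * (1 / 25 + 1 / 2)) = 4 := by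
      rw [max_eq_left]; norm_num
    rw [h1, h2]
    norm_num
  obtain ⟨δ, hδ, n₀, hn⟩ := asymMach 1 300 6 20 4 (1 / 2) (1 / 25) le_rfl (by norm_num)
    (by norm_num) (by norm_num) hc
  refine ⟨δ, hδ, n₀, fun n hn0 C K κ a D r R A hC hK hκ ha hW hdec => ?_⟩
  have hmin : ((min K (C * D) : ℕ) : ℝ) ≤ (n : ℝ) ^ (4 : ℝ) := by
    have h4 : ((min K (C * D) : ℕ) : ℝ) ≤ K := by exact_mod_cast Nat.min_le_left _ _
    refine le_trans h4 ?_
    have h5 : (n : ℝ) ^ (4 : ℝ) = (n : ℝ) ^ (4 : ℕ) := by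
      rw [← Real.rpow_natCast]; norm_num
    rw [h5]
    exact_mod_cast hK
  have key := hn n hn0 a κ C K D r R ha hκ hmin hC A hW hdec
  have h6 : (3 : ℝ) - 1 / 25 = 2.96 := by norm_num
  rw [h6] at key
  exact key

end Pool.Agent.Helper21.CR
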